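import Pool.Agent.Helper14.CV.StB

set_option autoImplicit false

namespace Pool.Agent.Helper75.CV

open Pool.Agent.Helper14.CV

private theorem iter_comm {n l : ℕ} (hl : 0 < l) {a b c d : ℤ}
    (hS : ∀ G : ℤ → ℤ → ℂ, Sym 0 n G → Sym 0 n (Tl l 1 G))
    (hC : ∀ G : ℤ → ℤ → ℂ, Sym 0 n G → EqC (Tl l 1 (act a b c d G)) (act a b c d (Tl l 1 G)))
    (i : ℕ) : ∀ G : ℤ → ℤ → ℂ, Sym 0 n G →
      EqC ((Tl l 1)^[i] (act a b c d G)) (act a b c d ((Tl l 1)^[i] G)) ∧ Sym 0 n ((Tl l 1)^[i] G) := by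
  induction i with
  | zero => intro G hG; exact ⟨EqC.refl _, hG⟩
  | succ i ih =>
    intro G hG
    rw [Function.iterate_succ_apply, Function.iterate_succ_apply]
    have h1 := ih (Tl l 1 G) (hS G hG)
    exact ⟨((hC G hG).Tl_iter hl 1 i).trans h1.1, h1.2⟩

private theorem key {n : ℕ} {a b c d : ℤ} (hHkS : StHkS)
    (hC : ∀ l : ℕ, l.Prime → l ≠ 2 → ∀ G : ℤ → ℤ → ℂ, Sym 0 n G →
      EqC (Tl l 1 (act a b c d G)) (act a b c d (Tl l 1 G)))
    (G : ℤ → ℤ → ℂ) (hG : Sym 0 n G) (i j : ℕ) :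
    ∃ H : ℤ → ℤ → ℂ, Sym 0 n H ∧ H = (Tl 3 1)^[i] ((Tl 5 1)^[j] G) ∧
      EqC ((Tl 3 1)^[i] ((Tl 5 1)^[j] (act a b c d G))) (act a b c d H) := by
  have hS : ∀ l : ℕ, l.Prime → l ≠ 2 → ∀ G : ℤ → ℤ → ℂ, Sym 0 n G → Sym 0 n (Tl l 1 G) :=
    fun l hp h2 G hG => hHkS ℂ inferInstance n l G hp h2 hG
  have h5 := iter_comm (l := 5) (by norm_num) (hS 5 (by norm_num) (by norm_num))
    (hC 5 (by norm_num) (by norm_num)) j G hG
  have h3 := iter_comm (l := 3) (by norm_num) (hS 3 (by norm_num) (by norm_num))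
    (hC 3 (by norm_num) (by norm_num)) i _ h5.2
  exact ⟨_, h3.2, rfl, (h5.1.Tl_iter (by norm_num) 1 i).trans h3.1⟩

private theorem hom_neg {n : ℕ} {H : ℤ → ℤ → ℂ} (hH : Sym 0 n H) : H (-1) 0 = H 1 0 := by
  have := hH.1 (-1) 1 0 (by norm_num) (Or.inl one_ne_zero)
  simpa using this

theorem hEv (hHkS : StHkS) (hHkW : StHkW) (hHkT : StHkT) (_hNrm : StNrm) : StEv := by
  intro n G _ hG i j
  constructor
  · obtain ⟨H, hH, hHe, hE⟩ := key hHkS (fun l hp h2 G hG => hHkW ℂ inferInstance n l G hp h2 hG) G hG i j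
    have h1 := hE.diff (p := 1) (q := 0) (p' := 0) (q' := 1) (Or.inl one_ne_zero) (Or.inr one_ne_zero)
    have h2 : H 0 (2 ^ n) = H 0 1 := by
      have := hH.1 (2 ^ n) 0 1 (by positivity) (Or.inr one_ne_zero)
      simpa using this
    unfold ev
    rw [h1, ← hHe]
    simp only [act, zero_mul, mul_zero, mul_one, zero_add, add_zero, neg_mul, one_mul, neg_zero]
    rw [h2, hom_neg hH]
    ring
  · obtain ⟨H, hH, hHe, hE⟩ := key hHkS (fun l hp h2 G hG => hHkT ℂ inferInstance n l G hp h2 hG) G hG i j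
    have h1 := hE.diff (p := 1) (q := 0) (p' := 0) (q' := 1) (Or.inl one_ne_zero) (Or.inr one_ne_zero)
    unfold ev
    rw [h1, ← hHe]
    simp only [act, zero_mul, mul_zero, mul_one, zero_add, add_zero, one_mul]
    rw [hom_neg hH]

end Pool.Agent.Helper75.CV
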