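import Pool.Agent.Helper14.CV.StD

/-!
# Project CV, module HK5: the operator `T_5` on the plane
-/

set_option autoImplicit false

namespace Pool.Agent.Helper75.CV

open Pool.Agent.Helper14.CV

private theorem unit4 (s : ℕ) (w : ZMod (2 ^ s)) : IsUnit (1 + 4 * w) := by
  have h : IsNilpotent (4 * w) := by
    refine ⟨s, ?_⟩
    have h4 : (4 : ZMod (2 ^ s)) = 2 * 2 := by norm_num
    have h0 : (2 : ZMod (2 ^ s)) ^ s = 0 := by
      have h := ZMod.natCast_self (2 ^ s)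
      push_cast at h
      exact h
    rw [h4, mul_assoc, mul_pow, h0, zero_mul]
  exact h.isUnit_one_add

private theorem unit5 (s : ℕ) : IsUnit (5 : ZMod (2 ^ s)) := by
  have h := unit4 s 1
  have e : (1 + 4 * 1 : ZMod (2 ^ s)) = 5 := by norm_num
  rwa [e] at h

private theorem cancel {n : ℕ} {u : ZMod n} (h : IsUnit u) : u⁻¹ * u = 1 :=
  ZMod.inv_mul_of_unit u h

/-- Right translation by `A^z` and the symbol. -/
private theorem edA (hPlA : StPlA) (hEdg : StEdg) {r s : ℕ} {G : ℤ → ℤ → ZMod 2}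
    (hG : Sym (r + 1) (s + 1) G) (z u1 u2 v1 v2 : ℤ) (hu : u1 ≠ 0 ∨ u2 ≠ 0) (hv : v1 ≠ 0 ∨ v2 ≠ 0)
    (x : ZMod (2 ^ r)) (y : ZMod (2 ^ s)) :
    edgeF 1 u1 u2 v1 v2 G (x + (z : ZMod (2 ^ r))) (y * (1 + 4 * (z : ZMod (2 ^ s)) * y)⁻¹) =
      edgeF 1 (u1 + 2 * z * u2) u2 (v1 + 2 * z * v2) v2 G x y := by
  obtain ⟨a, b, c, d, P1⟩ : ∃ a b c d : ℤ, Pl 1 a b c d x y := ⟨_, _, _, _, hPlA 1 r s x y⟩
  obtain ⟨hd, hb, hc⟩ := P1
  have hu' : u1 + 2 * z * u2 ≠ 0 ∨ u2 ≠ 0 := by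
    by_cases h : u2 = 0
    · left
      rw [h]
      rcases hu with h1 | h1
      · simpa using h1
      · exact absurd h h1
    · exact Or.inr h
  have hv' : v1 + 2 * z * v2 ≠ 0 ∨ v2 ≠ 0 := by
    by_cases h : v2 = 0
    · left
      rw [h]
      rcases hv with h1 | h1
      · simpa using h1
      · exact absurd h h1
    · exact Or.inr h
  have P1 : Pl 1 a b c d x y := ⟨hd, hb, hc⟩
  have hun : IsUnit (1 + 4 * (z : ZMod (2 ^ s)) * y) := by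
    rw [mul_assoc]
    exact unit4 s _
  have P2 : Pl 1 a (b + z * a) c (d + 4 * z * c) (x + (z : ZMod (2 ^ r))) (y * (1 + 4 * (z : ZMod (2 ^ s)) * y)⁻¹) := by
    refine ⟨?_, ?_, ?_⟩
    · linear_combination hd
    · push_cast
      linear_combination hb
    · have hi := cancel hun
      push_cast
      linear_combination (1 - 4 * (z : ZMod (2 ^ s)) * y * (1 + 4 * z * y)⁻¹) * hc -
        y * (d : ZMod (2 ^ s)) * hi
  have e1 := hEdg (ZMod 2) _ 1 r s G hG u1 u2 v1 v2 hu hv (x + (z : ZMod (2 ^ r)))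
    (y * (1 + 4 * (z : ZMod (2 ^ s)) * y)⁻¹)
    a (b + z * a) c (d + 4 * z * c) P2
  have e2 := hEdg (ZMod 2) _ 1 r s G hG (u1 + 2 * z * u2) u2 (v1 + 2 * z * v2) v2 hu' hv' x y
    a b c d P1
  rw [e1, e2]
  congr 2 <;> ring

/-- Right translation by `B^z` and the symbol. -/
private theorem edB (hPlA : StPlA) (hEdg : StEdg) {r s : ℕ} {G : ℤ → ℤ → ZMod 2}
    (hG : Sym (r + 1) (s + 1) G) (z u1 u2 v1 v2 : ℤ) (hu : u1 ≠ 0 ∨ u2 ≠ 0) (hv : v1 ≠ 0 ∨ v2 ≠ 0)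
    (x : ZMod (2 ^ r)) (y : ZMod (2 ^ s)) :
    edgeF 1 u1 u2 v1 v2 G (x * (1 + 4 * (z : ZMod (2 ^ r)) * x)⁻¹) (y + (z : ZMod (2 ^ s))) =
      edgeF 1 u1 (2 * z * u1 + u2) v1 (2 * z * v1 + v2) G x y := by
  obtain ⟨a, b, c, d, P1⟩ : ∃ a b c d : ℤ, Pl 1 a b c d x y := ⟨_, _, _, _, hPlA 1 r s x y⟩
  obtain ⟨hd, hb, hc⟩ := P1
  have hu' : u1 ≠ 0 ∨ 2 * z * u1 + u2 ≠ 0 := by
    by_cases h : u1 = 0
    · right
      rw [h]
      rcases hu with h1 | h1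
      · exact absurd h h1
      · simpa using h1
    · exact Or.inl h
  have hv' : v1 ≠ 0 ∨ 2 * z * v1 + v2 ≠ 0 := by
    by_cases h : v1 = 0
    · right
      rw [h]
      rcases hv with h1 | h1
      · exact absurd h h1
      · simpa using h1
    · exact Or.inl h
  have P1 : Pl 1 a b c d x y := ⟨hd, hb, hc⟩
  have hun : IsUnit (1 + 4 * (z : ZMod (2 ^ r)) * x) := by
    rw [mul_assoc]
    exact unit4 r _
  have P2 : Pl 1 (a + 4 * z * b) b (c + z * d) d (x * (1 + 4 * (z : ZMod (2 ^ r)) * x)⁻¹)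
      (y + (z : ZMod (2 ^ s))) := by
    refine ⟨?_, ?_, ?_⟩
    · linear_combination hd
    · have hi := cancel hun
      push_cast
      linear_combination (1 - 4 * (z : ZMod (2 ^ r)) * x * (1 + 4 * z * x)⁻¹) * hb -
        x * (a : ZMod (2 ^ r)) * hi
    · push_cast
      linear_combination hc
  have e1 := hEdg (ZMod 2) _ 1 r s G hG u1 u2 v1 v2 hu hv (x * (1 + 4 * (z : ZMod (2 ^ r)) * x)⁻¹)
    (y + (z : ZMod (2 ^ s)))
    (a + 4 * z * b) b (c + z * d) d P2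
  have e2 := hEdg (ZMod 2) _ 1 r s G hG u1 (2 * z * u1 + u2) v1 (2 * z * v1 + v2) hu' hv' x y
    a b c d P1
  rw [e1, e2]
  congr 2 <;> ring

/-- The potential at the standard matrix. -/
private noncomputable def pot {r s : ℕ} (G : ℤ → ℤ → ZMod 2) (x : ZMod (2 ^ r)) (y : ZMod (2 ^ s))
    (u1 u2 : ℤ) : ZMod 2 :=
  G (u1 + 2 ^ 1 * (x.val : ℤ) * u2) (2 * rY 1 x y * u1 + (1 + 2 ^ (1 + 1) * (x.val : ℤ) * rY 1 x y) * u2)

private theorem edge_pot {r s : ℕ} (G : ℤ → ℤ → ZMod 2) (x : ZMod (2 ^ r)) (y : ZMod (2 ^ s))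
    (u1 u2 v1 v2 : ℤ) : edgeF 1 u1 u2 v1 v2 G x y = pot G x y u1 u2 - pot G x y v1 v2 := rfl

private theorem pot_hom {r s : ℕ} {G : ℤ → ℤ → ZMod 2} (hG : Homog G) (x : ZMod (2 ^ r))
    (y : ZMod (2 ^ s)) (k u1 u2 : ℤ) (hk : k ≠ 0) (hu : u1 ≠ 0 ∨ u2 ≠ 0) :
    pot G x y (k * u1) (k * u2) = pot G x y u1 u2 := by
  unfold pot
  have h := hG k (u1 + 2 ^ 1 * (x.val : ℤ) * u2)
    (2 * rY 1 x y * u1 + (1 + 2 ^ (1 + 1) * (x.val : ℤ) * rY 1 x y) * u2) hk (by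
      by_contra hc
      push Not at hc
      obtain ⟨h1, h2⟩ := hc
      have hu2 : u2 = 0 := by
        linear_combination h2 - 2 * rY 1 x y * h1
      have hu1 : u1 = 0 := by
        rw [hu2] at h1
        linear_combination h1
      rcases hu with h | h
      · exact h hu1
      · exact h hu2)
  rw [← h]
  congr 1 <;> ring

private theorem castz {r s : ℕ} {a : ℤ} (h : (2 : ℤ) ^ (r + s) ∣ a) :
    (a : ZMod (2 ^ r)) = 0 ∧ (a : ZMod (2 ^ s)) = 0 := by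
  constructor
  · rw [ZMod.intCast_zmod_eq_zero_iff_dvd]
    push_cast
    exact (pow_dvd_pow 2 (Nat.le_add_right r s)).trans h
  · rw [ZMod.intCast_zmod_eq_zero_iff_dvd]
    push_cast
    exact (pow_dvd_pow 2 (Nat.le_add_left s r)).trans h

theorem hHk5 (hPlA : StPlA) (hEdg : StEdg) (hHkF : StHkF) : StHk5 := by
  intro r s G m1 m2 m3 m4 F1 F3 F hG h1 h2 h3 h4 hF1 hF3 hF
  have eF1 : F1 = fun x y => edgeF 1 1 0 0 1 G x y := by
    funext x y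
    exact hF1 x y
  have eF3 : F3 = fun x y => edgeF 1 1 1 0 1 G x y := by
    funext x y
    exact hF3 x y
  have two : ∀ a : ZMod 2, a + a = 0 := fun a => CharTwo.add_self_eq_zero a
  have sub : ∀ a b : ZMod 2, a - b = a + b := fun a b => CharTwo.sub_eq_add a b
  -- the four functions
  have tAE : ∀ (z u1 u2 v1 v2 : ℤ), (u1 ≠ 0 ∨ u2 ≠ 0) → (v1 ≠ 0 ∨ v2 ≠ 0) →
      tA z (fun (x : ZMod (2 ^ r)) (y : ZMod (2 ^ s)) => edgeF 1 u1 u2 v1 v2 G x y) =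
        fun x y => edgeF 1 (u1 + 2 * z * u2) u2 (v1 + 2 * z * v2) v2 G x y := by
    intro z u1 u2 v1 v2 hu hv
    funext x y
    exact edA hPlA hEdg hG z u1 u2 v1 v2 hu hv x y
  have tBE : ∀ (z u1 u2 v1 v2 : ℤ), (u1 ≠ 0 ∨ u2 ≠ 0) → (v1 ≠ 0 ∨ v2 ≠ 0) →
      tB z (fun (x : ZMod (2 ^ r)) (y : ZMod (2 ^ s)) => edgeF 1 u1 u2 v1 v2 G x y) =
        fun x y => edgeF 1 u1 (2 * z * u1 + u2) v1 (2 * z * v1 + v2) G x y := by
    intro z u1 u2 v1 v2 hu hv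
    funext x y
    exact edB hPlA hEdg hG z u1 u2 v1 v2 hu hv x y
  have H1 : F1 + opB 1 F1 + opB 1 (opA 1 F1) = fun x y => edgeF 1 1 0 2 5 G x y := by
    have a1 : opB 1 F1 = fun x y => edgeF 1 1 2 0 1 G x y := by
      rw [eF1]
      exact tBE 1 1 0 0 1 (by norm_num) (by norm_num)
    have a2 : opB 1 (opA 1 F1) = fun x y => edgeF 1 1 2 2 5 G x y := by
      rw [eF1]
      have e : opA 1 (fun (x : ZMod (2 ^ r)) (y : ZMod (2 ^ s)) => edgeF 1 1 0 0 1 G x y) =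
          fun x y => edgeF 1 1 0 2 1 G x y := tAE 1 1 0 0 1 (by norm_num) (by norm_num)
      rw [e]
      exact tBE 1 1 0 2 1 (by norm_num) (by norm_num)
    rw [a1, a2, eF1]
    funext x y
    show edgeF 1 1 0 0 1 G x y + edgeF 1 1 2 0 1 G x y + edgeF 1 1 2 2 5 G x y = _
    simp only [edge_pot, sub]
    linear_combination two (pot G x y 0 1) + two (pot G x y 1 2)
  have H2 : F1 + opB (-1) F1 + opB (-1) (opA (-1) F1) = fun x y => edgeF 1 1 0 (-2) 5 G x y := by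
    have a1 : opB (-1) F1 = fun x y => edgeF 1 1 (-2) 0 1 G x y := by
      rw [eF1]
      exact tBE (-1) 1 0 0 1 (by norm_num) (by norm_num)
    have a2 : opB (-1) (opA (-1) F1) = fun x y => edgeF 1 1 (-2) (-2) 5 G x y := by
      rw [eF1]
      have e : opA (-1) (fun (x : ZMod (2 ^ r)) (y : ZMod (2 ^ s)) => edgeF 1 1 0 0 1 G x y) =
          fun x y => edgeF 1 1 0 (-2) 1 G x y := tAE (-1) 1 0 0 1 (by norm_num) (by norm_num)
      rw [e]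
      exact tBE (-1) 1 0 (-2) 1 (by norm_num) (by norm_num)
    rw [a1, a2, eF1]
    funext x y
    show edgeF 1 1 0 0 1 G x y + edgeF 1 1 (-2) 0 1 G x y + edgeF 1 1 (-2) (-2) 5 G x y = _
    simp only [edge_pot, sub]
    linear_combination two (pot G x y 0 1) + two (pot G x y 1 (-2))
  have cC : ∀ (u1 u2 v1 v2 : ℤ), (u1 ≠ 0 ∨ u2 ≠ 0) → (v1 ≠ 0 ∨ v2 ≠ 0) →
      (u1 + 2 * (-1) * u2 ≠ 0 ∨ u2 ≠ 0) → (v1 + 2 * (-1) * v2 ≠ 0 ∨ v2 ≠ 0) →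
      opC (fun (x : ZMod (2 ^ r)) (y : ZMod (2 ^ s)) => edgeF 1 u1 u2 v1 v2 G x y) =
        fun x y => edgeF 1 (u1 - 2 * u2) (2 * u1 - 3 * u2) (v1 - 2 * v2) (2 * v1 - 3 * v2) G x y := by
    intro u1 u2 v1 v2 hu hv hu' hv'
    show tB 1 (tA (-1) (fun (x : ZMod (2 ^ r)) (y : ZMod (2 ^ s)) => edgeF 1 u1 u2 v1 v2 G x y)) = _
    rw [tAE (-1) u1 u2 v1 v2 hu hv, tBE 1 _ _ _ _ hu' hv']
    funext x y
    congr 1 <;> ring
  have cC' : ∀ (u1 u2 v1 v2 : ℤ), (u1 ≠ 0 ∨ u2 ≠ 0) → (v1 ≠ 0 ∨ v2 ≠ 0) →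
      (u1 ≠ 0 ∨ 2 * (-1) * u1 + u2 ≠ 0) → (v1 ≠ 0 ∨ 2 * (-1) * v1 + v2 ≠ 0) →
      opC' (fun (x : ZMod (2 ^ r)) (y : ZMod (2 ^ s)) => edgeF 1 u1 u2 v1 v2 G x y) =
        fun x y => edgeF 1 (-3 * u1 + 2 * u2) (-2 * u1 + u2) (-3 * v1 + 2 * v2) (-2 * v1 + v2) G x y := by
    intro u1 u2 v1 v2 hu hv hu' hv'
    show tA 1 (tB (-1) (fun (x : ZMod (2 ^ r)) (y : ZMod (2 ^ s)) => edgeF 1 u1 u2 v1 v2 G x y)) = _
    rw [tBE (-1) u1 u2 v1 v2 hu hv, tAE 1 _ _ _ _ hu' hv']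
    funext x y
    congr 1 <;> ring
  have H3 : F1 + F3 + opC (opC F3) = fun x y => edgeF 1 1 0 4 5 G x y := by
    have a1 : opC (opC F3) = fun x y => edgeF 1 1 1 4 5 G x y := by
      rw [eF3, cC 1 1 0 1 (by norm_num) (by norm_num) (by norm_num) (by norm_num),
        cC _ _ _ _ (by norm_num) (by norm_num) (by norm_num) (by norm_num)]
      norm_num
    rw [a1, eF1, eF3]
    funext x y
    show edgeF 1 1 0 0 1 G x y + edgeF 1 1 1 0 1 G x y + edgeF 1 1 1 4 5 G x y = _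
    simp only [edge_pot, sub]
    linear_combination two (pot G x y 0 1) + two (pot G x y 1 1)
  have H4 : F1 + F3 + opC' (opC' (opC' F3)) = fun x y => edgeF 1 1 0 6 5 G x y := by
    have a1 : opC' (opC' (opC' F3)) = fun x y => edgeF 1 (-1) (-1) 6 5 G x y := by
      rw [eF3, cC' 1 1 0 1 (by norm_num) (by norm_num) (by norm_num) (by norm_num),
        cC' _ _ _ _ (by norm_num) (by norm_num) (by norm_num) (by norm_num),
        cC' _ _ _ _ (by norm_num) (by norm_num) (by norm_num) (by norm_num)]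
      norm_num
    rw [a1, eF1, eF3]
    funext x y
    show edgeF 1 1 0 0 1 G x y + edgeF 1 1 1 0 1 G x y + edgeF 1 (-1) (-1) 6 5 G x y = _
    have hm : pot G x y (-1) (-1) = pot G x y 1 1 := by
      have := pot_hom hG.1 x y (-1) 1 1 (by norm_num) (by norm_num)
      norm_num at this
      exact this
    simp only [edge_pot, sub, hm]
    linear_combination two (pot G x y 0 1) + two (pot G x y 1 1)
  funext x y
  -- the Hecke formula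
  have hJ := hHkF (ZMod 2) _ r s 5 G {0, 1, -1, 2, -2} (by norm_num) (by norm_num) hG (by decide)
    (by
      intro j hj j' hj' hd
      simp only [Finset.mem_insert, Finset.mem_singleton] at hj hj'
      rcases hj with rfl | rfl | rfl | rfl | rfl <;> rcases hj' with rfl | rfl | rfl | rfl | rfl <;>
        first | rfl | (exfalso; revert hd; norm_num)) x y
  rw [hF x y, hJ]
  have u5r : (5 : ZMod (2 ^ r))⁻¹ * 5 = 1 := cancel (unit5 r)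
  have shift : ∀ (m j c : ℤ), (2 : ℤ) ^ (r + s) ∣ 5 * m + j →
      edgeF 1 1 0 c 5 G ((x - ((j : ℤ) : ZMod (2 ^ r))) * ((5 : ℕ) : ZMod (2 ^ r))⁻¹)
        (((5 : ℕ) : ZMod (2 ^ s)) * y * (1 - 4 * ((j : ℤ) : ZMod (2 ^ s)) * y)⁻¹) =
      edgeF 1 1 0 (c + 10 * m) 5 G (x * ((5 : ℕ) : ZMod (2 ^ r))⁻¹) (((5 : ℕ) : ZMod (2 ^ s)) * y) := by
    intro m j c hm
    obtain ⟨hr, hs⟩ := castz hm
    push_cast at hr hs
    have ex : (x - ((j : ℤ) : ZMod (2 ^ r))) * ((5 : ℕ) : ZMod (2 ^ r))⁻¹ =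
        x * ((5 : ℕ) : ZMod (2 ^ r))⁻¹ + (m : ZMod (2 ^ r)) := by
      push_cast
      linear_combination (-(5 : ZMod (2 ^ r))⁻¹) * hr + (m : ZMod (2 ^ r)) * u5r
    have ey : ((5 : ℕ) : ZMod (2 ^ s)) * y * (1 - 4 * ((j : ℤ) : ZMod (2 ^ s)) * y)⁻¹ =
        ((5 : ℕ) : ZMod (2 ^ s)) * y * (1 + 4 * (m : ZMod (2 ^ s)) * (((5 : ℕ) : ZMod (2 ^ s)) * y))⁻¹ := by
      have : (1 - 4 * ((j : ℤ) : ZMod (2 ^ s)) * y) =
          (1 + 4 * (m : ZMod (2 ^ s)) * (((5 : ℕ) : ZMod (2 ^ s)) * y)) := by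
        push_cast
        linear_combination (-4 * y) * hs
      rw [this]
    rw [ex, ey, edA hPlA hEdg hG m 1 0 c 5 (by norm_num) (by norm_num)]
    congr 1 <;> ring
  have opa : ∀ (m c : ℤ) (X : ZMod (2 ^ r)) (Y : ZMod (2 ^ s)),
      (opA m (fun (x : ZMod (2 ^ r)) (y : ZMod (2 ^ s)) => edgeF 1 1 0 c 5 G x y) : Fn (2 ^ r) (2 ^ s)) X Y =
        edgeF 1 1 0 (c + 10 * m) 5 G X Y := by
    intro m c X Y
    have h := edA hPlA hEdg hG m 1 0 c 5 (by norm_num) (by norm_num) X Y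
    have h' : edgeF 1 (1 + 2 * m * 0) 0 (c + 2 * m * 5) 5 G X Y = edgeF 1 1 0 (c + 10 * m) 5 G X Y := by
      congr 1 <;> ring
    rw [← h', ← h]
    rfl
  have g0 := shift 0 0 0 (by norm_num)
  have g1 := shift m1 1 2 h1
  have g2 := shift m2 (-1) (-2) (by rw [← sub_eq_add_neg]; exact h2)
  have g3 := shift m3 2 4 h3
  have g4 := shift (m4 + 1) (-2) (-4) (by
    have : 5 * (m4 + 1) + -2 = 5 * m4 + 3 := by ring
    rw [this]
    exact h4)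
  have z0 : edgeF 1 1 0 (0 + 10 * 0) 5 G (x * ((5 : ℕ) : ZMod (2 ^ r))⁻¹) (((5 : ℕ) : ZMod (2 ^ s)) * y) =
      F1 (x * ((5 : ℕ) : ZMod (2 ^ r))⁻¹) (((5 : ℕ) : ZMod (2 ^ s)) * y) := by
    rw [eF1]
    show _ = edgeF 1 1 0 0 1 G _ _
    have := pot_hom hG.1 (x * ((5 : ℕ) : ZMod (2 ^ r))⁻¹) (((5 : ℕ) : ZMod (2 ^ s)) * y) 5 0 1
      (by norm_num) (by norm_num)
    norm_num at this
    simp only [edge_pot]
    norm_num
    rw [this]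
  have hsum : ∑ j ∈ ({0, 1, -1, 2, -2} : Finset ℤ), edgeF 1 1 0 (2 * j) (5 : ℕ) G
      ((x - ((j : ℤ) : ZMod (2 ^ r))) * ((5 : ℕ) : ZMod (2 ^ r))⁻¹)
      (((5 : ℕ) : ZMod (2 ^ s)) * y * (1 - 4 * ((j : ℤ) : ZMod (2 ^ s)) * y)⁻¹) =
      F1 (x * ((5 : ℕ) : ZMod (2 ^ r))⁻¹) (((5 : ℕ) : ZMod (2 ^ s)) * y) +
      (edgeF 1 1 0 (2 + 10 * m1) 5 G (x * ((5 : ℕ) : ZMod (2 ^ r))⁻¹) (((5 : ℕ) : ZMod (2 ^ s)) * y) +
      (edgeF 1 1 0 (-2 + 10 * m2) 5 G (x * ((5 : ℕ) : ZMod (2 ^ r))⁻¹) (((5 : ℕ) : ZMod (2 ^ s)) * y) +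
      (edgeF 1 1 0 (4 + 10 * m3) 5 G (x * ((5 : ℕ) : ZMod (2 ^ r))⁻¹) (((5 : ℕ) : ZMod (2 ^ s)) * y) +
      edgeF 1 1 0 (-4 + 10 * (m4 + 1)) 5 G (x * ((5 : ℕ) : ZMod (2 ^ r))⁻¹)
        (((5 : ℕ) : ZMod (2 ^ s)) * y)))) := by
    rw [Finset.sum_insert (by decide), Finset.sum_insert (by decide), Finset.sum_insert (by decide),
      Finset.sum_insert (by decide), Finset.sum_singleton]
    rw [← z0, ← g0, ← g1, ← g2, ← g3, ← g4]
    norm_num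
  rw [hsum]
  have hE : (opE 5 F1 : Fn (2 ^ r) (2 ^ s)) x y =
      edgeF 1 1 0 0 1 G (((5 : ℕ) : ZMod (2 ^ r)) * x) (y * ((5 : ℕ) : ZMod (2 ^ s))⁻¹) := by
    rw [eF1]
    rfl
  have hT : T5f m1 m2 m3 m4 F1 F3 x y = (opE 5 F1 : Fn (2 ^ r) (2 ^ s)) x y +
      (F1 (x * ((5 : ℕ) : ZMod (2 ^ r))⁻¹) (((5 : ℕ) : ZMod (2 ^ s)) * y) +
      (opA m1 (F1 + opB 1 F1 + opB 1 (opA 1 F1)) : Fn (2 ^ r) (2 ^ s))
        (x * ((5 : ℕ) : ZMod (2 ^ r))⁻¹) (((5 : ℕ) : ZMod (2 ^ s)) * y) +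
      (opA m2 (F1 + opB (-1) F1 + opB (-1) (opA (-1) F1)) : Fn (2 ^ r) (2 ^ s))
        (x * ((5 : ℕ) : ZMod (2 ^ r))⁻¹) (((5 : ℕ) : ZMod (2 ^ s)) * y) +
      (opA m3 (F1 + F3 + opC (opC F3)) : Fn (2 ^ r) (2 ^ s))
        (x * ((5 : ℕ) : ZMod (2 ^ r))⁻¹) (((5 : ℕ) : ZMod (2 ^ s)) * y) +
      (opA m4 (F1 + F3 + opC' (opC' (opC' F3))) : Fn (2 ^ r) (2 ^ s))
        (x * ((5 : ℕ) : ZMod (2 ^ r))⁻¹) (((5 : ℕ) : ZMod (2 ^ s)) * y)) := rfl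
  rw [hT, H1, H2, H3, H4, opa, opa, opa, opa, hE]
  have e4 : (-4 + 10 * (m4 + 1) : ℤ) = 6 + 10 * m4 := by ring
  rw [e4]
  ring

end Pool.Agent.Helper75.CV
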